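import Pool.Agent.P.MP_90a4ef_pr.Mk7

open MeasureTheory ProbabilityTheory Filter Topology
open scoped MatrixGroups UpperHalfPlane

namespace Pool.Agent.Results.MP_90a4ef_pr.MarkovDrop

theorem result :
    ∀ (Γ V : Type) [Group Γ] [MulAction Γ V] [Countable V] [MeasurableSpace V]
      [DiscreteMeasurableSpace V], Finite (MulAction.orbitRel.Quotient Γ V) →
    ∀ (p : V → PMF V), (∀ v, (p v).support.Finite) →
      (∀ (g : Γ) (v w : V), p (g • v) (g • w) = p v w) →
      (∀ v w : V, Relation.EqvGen (fun a b => p a b ≠ 0) v w) →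
      (∀ v w : V, ∃ g : Γ, Relation.ReflTransGen (fun a b => p a b ≠ 0) v (g • w)) →
    ∀ (ρ : Γ →* SL(2, ℝ)), DiscreteTopology ρ.range →
      CompactSpace (MulAction.orbitRel.Quotient ρ.range ℍ) →
    ∀ (f : V → ℍ), (∀ (g : Γ) (v : V), f (g • v) = ρ g • f v) →
    ∀ (Ω : Type) [MeasurableSpace Ω] (P : Measure Ω) [IsProbabilityMeasure P]
      (X : ℕ → Ω → V), (∀ n, Measurable (X n)) →
    ∀ (v₀ : V), (∀ (n : ℕ) (a : ℕ → V), a 0 = v₀ →
      P {ω | ∀ m ≤ n, X m ω = a m} = ∏ m ∈ Finset.range n, p (a m) (a (m + 1))) →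
    ∃ ξ : Ω → Metric.sphere (0 : ℂ) 1, Measurable ξ ∧
      (∀ᵐ ω ∂P, Tendsto (fun n : ℕ =>
        ((f (X n ω) : ℂ) - Complex.I) / ((f (X n ω) : ℂ) + Complex.I)) atTop (𝓝 (ξ ω : ℂ))) ∧
      ⨅ (A : Set (Metric.sphere (0 : ℂ) 1)) (_ : MeasurableSet A) (_ : P.map ξ A = 1),
        dimH A < 1 :=
  Pool.Agent.P.MP_90a4ef_pr.Mk.main

/-- The posed question Q1 is the case `V = Γ`, `p v w = μ (v⁻¹ * w)`, `f γ = ρ γ • o`. -/
theorem posed :
    ∀ (Γ : Type) [Group Γ] [MeasurableSpace Γ] [DiscreteMeasurableSpace Γ] (μ : PMF Γ),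
      μ.support.Finite → Subgroup.closure μ.support = ⊤ →
    ∀ (ρ : Γ →* SL(2, ℝ)), DiscreteTopology ρ.range →
      CompactSpace (MulAction.orbitRel.Quotient ρ.range ℍ) →
    ∀ (o : ℍ) (Ω : Type) [MeasurableSpace Ω] (P : Measure Ω) [IsProbabilityMeasure P]
      (g : ℕ → Ω → Γ), (∀ n, Measurable (g n)) → iIndepFun g P →
      (∀ n, P.map (g n) = μ.toMeasure) →
    ∃ ξ : Ω → Metric.sphere (0 : ℂ) 1, Measurable ξ ∧
      (∀ᵐ ω ∂P, Tendsto (fun n : ℕ =>
        (((ρ ((List.range n).map fun i => g i ω).prod • o : ℍ) : ℂ) - Complex.I) /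
          (((ρ ((List.range n).map fun i => g i ω).prod • o : ℍ) : ℂ) + Complex.I))
        atTop (𝓝 (ξ ω : ℂ))) ∧
      ⨅ (A : Set (Metric.sphere (0 : ℂ) 1)) (_ : MeasurableSet A) (_ : P.map ξ A = 1),
        dimH A < 1 := by
  intro Γ _ _ _ μ hfin hgen ρ hdisc hc o Ω _ P _ g hg hind hlaw
  classical
  obtain ⟨α, _, φ, hφ⟩ := Group.fg_iff_exists_freeGroup_hom_surjective_finite.1
    (Group.fg_iff.2 ⟨_, hgen, hfin⟩)
  have : Countable Γ := hφ.countable
  have hp : ∀ v w : Γ, μ.map (v * ·) w = μ (v⁻¹ * w) := fun v w => by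
    rw [PMF.map_apply, tsum_eq_single (v⁻¹ * w) fun a ha => if_neg fun h => ha (by simp [h])]
    simp
  have : Subsingleton (MulAction.orbitRel.Quotient Γ Γ) :=
    (MulAction.pretransitive_iff_subsingleton_quotient Γ Γ).1 inferInstance
  refine result Γ Γ inferInstance (fun v => μ.map (v * ·))
    (fun v => by rw [PMF.support_map]; exact hfin.image _)
    (fun g v w => by simp only [hp, smul_eq_mul]; congr 1; group) (fun v w => ?_)
    (fun v w => ⟨v * w⁻¹, by simpa using Relation.ReflTransGen.refl⟩) ρ hdisc hc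
    (fun γ => ρ γ • o) (fun g v => by rw [smul_eq_mul, map_mul, mul_smul]) Ω P
    (fun n ω => ((List.range n).map fun i => g i ω).prod) (fun n => ?_) 1 fun n a ha => ?_
  · have key : ∀ x ∈ Subgroup.closure μ.support, ∀ v,
        Relation.EqvGen (fun a b => μ.map (a * ·) b ≠ 0) v (v * x) := by
      intro x hx
      induction hx using Subgroup.closure_induction with
      | mem x hx => exact fun v => .rel _ _ (by rwa [hp, inv_mul_cancel_left])
      | one => exact fun v => by rw [mul_one]; exact .refl _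
      | mul x y _ _ h1 h2 => exact fun v => by rw [← mul_assoc]; exact .trans _ _ _ (h1 v) (h2 _)
      | inv x _ h1 =>
        intro v
        have := h1 (v * x⁻¹)
        rw [inv_mul_cancel_right] at this
        exact .symm _ _ this
    have := key (v⁻¹ * w) (hgen ▸ Subgroup.mem_top _) v
    rwa [mul_inv_cancel_left] at this
  · induction n with
    | zero => exact measurable_const
    | succ n ih =>
      simp only [List.prod_range_succ]
      exact (Measurable.of_discrete (f := fun x : Γ × Γ => x.1 * x.2)).comp (ih.prodMk (hg n))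
  · have e : {ω | ∀ m ≤ n, ((List.range m).map fun i => g i ω).prod = a m} =
        ⋂ m ∈ Finset.range n, g m ⁻¹' {(a m)⁻¹ * a (m + 1)} := by
      ext ω
      simp only [Set.mem_iInter, Finset.mem_range, Set.mem_preimage, Set.mem_singleton_iff]
      constructor
      · intro h m hm
        rw [← h m hm.le, ← h (m + 1) hm, List.prod_range_succ, inv_mul_cancel_left]
      · intro h m hm
        induction m with
        | zero => simp [ha]
        | succ m ih => rw [List.prod_range_succ, ih (by omega), h m hm, mul_inv_cancel_left]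
    rw [e, hind.measure_inter_preimage_eq_mul _ fun i _ => measurableSet_singleton _]
    refine Finset.prod_congr rfl fun m _ => ?_
    rw [← Measure.map_apply (hg m) (measurableSet_singleton _), hlaw,
      PMF.toMeasure_apply_singleton _ _ (measurableSet_singleton _), hp]

end Pool.Agent.Results.MP_90a4ef_pr.MarkovDrop
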